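import Pool.Agent.Helper62.MU.Fin

/-!
# Densities which are the sum of a concave and of an even unimodal function

For `n ≥ 3` and a density `f(t) = g(t) + k(|t|)` with `g` continuous and concave on `[-1, 1]` and `k`
continuous and nonincreasing on `[0, 1]`: the zonal measure `f ⟨e, w⟩ dσ(w)` generates an admissible
map if and only if `∫_0^π f(cos θ) cos² θ sin^{n-3} θ dθ ≥ 0`.
-/

namespace Pool.Agent.Helper62.Kept.ConcavePlusUnimodal

open MeasureTheory Metric Set
open Pool.Agent.Helper62.Mink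

theorem result (n : ℕ) (hn : 3 ≤ n) (e : E n) (he : ‖e‖ = 1) (g k : ℝ → ℝ)
    (hg : ContinuousOn g (Icc (-1) 1)) (hc : ConcaveOn ℝ (Icc (-1) 1) g)
    (hk : ContinuousOn k (Icc 0 1)) (hA : AntitoneOn k (Icc 0 1)) :
    (∃ T : ConvexBody (E n) → ConvexBody (E n), Admissible T ∧
        Generates e (fun t => g t + k |t|) T) ↔
      0 ≤ ∫ θ in (0 : ℝ)..Real.pi,
        (g (Real.cos θ) + k |Real.cos θ|) * Real.cos θ ^ 2 * Real.sin θ ^ (n - 3) :=
  Pool.Agent.Helper62.MU.main_MU Pool.Agent.Helper62.MU.allSt n hn e he g k hg hc hk hA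

end Pool.Agent.Helper62.Kept.ConcavePlusUnimodal
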