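import Pool.Agent.Helper62.MU.Fin2

/-!
# The double cone test, which excludes densities that pass the zonoid test

A necessary condition for every continuous density, with two parameters `β < π/2 < α`, which is not a
consequence of the test on zonoids: in every dimension `n ≥ 3` there is an even polynomial density
which maps every zonoid to a convex body and violates the condition for some `β`, `α`.
-/

namespace Pool.Agent.Helper62.Kept.DoubleConeTest

open MeasureTheory Metric Set Polynomial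
open Pool.Agent.Helper62.Mink

/-- the double cone functional -/
noncomputable def dcone (n : ℕ) (f : ℝ → ℝ) (β α : ℝ) : ℝ :=
  f (Real.cos β) * Real.sin β ^ (n - 2) / Real.cos β -
    f (Real.cos α) * Real.sin α ^ (n - 2) / Real.cos α +
    ((n : ℝ) - 2) * ∫ θ in β..α, f (Real.cos θ) * Real.sin θ ^ (n - 3)

theorem kept_result (n : ℕ) (hn : 3 ≤ n) :
    (∀ (e : E n) (f : ℝ → ℝ), ‖e‖ = 1 → ContinuousOn f (Icc (-1) 1) →
      (∃ T : ConvexBody (E n) → ConvexBody (E n), Admissible T ∧ Generates e f T) →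
      ∀ β α : ℝ, 0 ≤ β → β < Real.pi / 2 → Real.pi / 2 < α → α ≤ Real.pi →
        0 ≤ dcone n f β α) ∧
    ∃ p : ℝ[X], (∀ t : ℝ, p.eval (-t) = p.eval t) ∧
      (∀ Z : ConvexBody (E n),
        (∃ ρ : Measure (sphere (0 : E n) 1), IsFiniteMeasure ρ ∧
          ∀ w, supp Z w = ∫ u, |(inner ℝ (u : E n) w : ℝ)| ∂ρ) →
        ∃ L : ConvexBody (E n), ∀ x : E n, ‖x‖ = 1 →
          supp L x = ∫ w : sphere (0 : E n) 1, supp Z w * p.eval (inner ℝ x (w : E n))
            ∂(volume : Measure (E n)).toSphere) ∧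
      ∃ β α : ℝ, 0 ≤ β ∧ β < Real.pi / 2 ∧ Real.pi / 2 < α ∧ α ≤ Real.pi ∧
        dcone n (fun t => p.eval t) β α < 0 := by
  obtain ⟨m, rfl⟩ : ∃ m, n = m + 2 := ⟨n - 2, by omega⟩
  have hm : 1 ≤ m := by omega
  have e1 : m + 2 - 3 = m - 1 := by omega
  have e2 : m + 2 - 2 = m := by omega
  have e3 : (((m + 2 : ℕ) : ℝ) - 2) = m := by push_cast; ring
  have hd : ∀ f β α, dcone (m + 2) f β α = Pool.Agent.Helper62.MU2.DCe m f β α := by
    intro f β α
    unfold dcone Pool.Agent.Helper62.MU2.DCe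
    rw [e1, e2, e3]
  refine ⟨fun e f he hf h β α h0 h1 h2 h3 => ?_,
    Pool.Agent.Helper62.MU2.fx m (Pool.Agent.Helper62.MU2.ax m),
    Pool.Agent.Helper62.MU2.fx_even m _, fun Z hZ => ?_, ?_⟩
  · rw [hd]
    exact Pool.Agent.Helper62.MU2.dc_test Pool.Agent.Helper62.MU2.allSt m hm e he f hf h β α
      h0 h1 h2 h3
  · obtain ⟨L, hL⟩ :=
      Pool.Agent.Helper62.MU2.ex_zonoid Pool.Agent.Helper62.MU2.allSt m hm Z hZ
    refine ⟨L, fun x hx => ?_⟩
    rw [hL x]
    unfold conv
    rw [hx]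
    simp only [div_one, one_mul]
  · obtain ⟨β, h0, h1, h2⟩ := Pool.Agent.Helper62.MU2.allSt.NU m hm
    refine ⟨β, Real.pi - β, h0, h1, by linarith, by linarith, ?_⟩
    rw [hd]
    exact h2

end Pool.Agent.Helper62.Kept.DoubleConeTest
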