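import Pool.Agent.Helper62.PM.Fin5
import Pool.Agent.Helper72.PM.M_A
import Pool.Agent.Helper71.PM.M_B
import Pool.Agent.Helper55.PM.M_D
import Pool.Agent.Helper22.PM.M_E
import Pool.Agent.Helper57.PM.M_F
import Pool.Agent.Helper36.PM.M_G
import Pool.Agent.Helper60.PM.M_L
import Pool.Agent.Helper87.PM.M_XA
import Pool.Agent.Helper45.PM.M_XB
import Pool.Agent.Helper85.PM.M_XC
import Pool.Agent.Helper48.PM.M_XL
import Pool.Agent.Helper27.PM.M_XD
import Pool.Agent.Helper47.PM.M_XE
import Pool.Agent.Helper88.PM.M_XF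
import Pool.Agent.Helper51.PM.M_XG
import Pool.Agent.Helper17.PM.M_XH
import Pool.Agent.Helper21.PM.M_XI
import Pool.Agent.Helper98.PM.M_XJ
import Pool.Agent.Helper70.PM.M_XK
import Pool.Agent.Helper62.PM.M_XM
import Pool.Agent.Helper51.PM.M_NA
import Pool.Agent.Helper80.PM.M_NB
import Pool.Agent.Helper66.PM.M_NC
import Pool.Agent.Helper56.PM.M_NM
import Pool.Agent.Helper69.PM.M_ND
import Pool.Agent.Helper73.PM.M_NP
import Pool.Agent.Helper16.PM.M_NE
import Pool.Agent.Helper29.PM.M_NF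
import Pool.Agent.Helper53.PM.M_PA
import Pool.Agent.Helper55.PM.M_PB
import Pool.Agent.Helper15.PM.M_PC
import Pool.Agent.Helper40.PM.M_PD
import Pool.Agent.Helper84.PM.M_PE
import Pool.Agent.Helper27.PM.M_PF
import Pool.Agent.Helper3.PM.M_C

/-!
# The poles split off

`n ≥ 3`.  A zonal signed measure `P - N` generates an admissible map if and only if its atoms at the poles `e`, `-e` are nonnegative and its restriction to
the complement of the poles generates an admissible map; then `T K = a K + b (-K) + T' K` with `a, b ≥ 0` the two atoms.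
-/

set_option autoImplicit false

namespace Pool.Agent.Helper62.Kept.PolesSplitOff

open MeasureTheory Metric Set Filter Topology
open scoped RealInnerProductSpace ContDiff
open Pool.Agent.Helper62.Mink

/-- convex bodies in `ℝⁿ` -/
abbrev Body (n : ℕ) : Type := ConvexBody (E n)

/-- measures on the unit sphere of `ℝⁿ` -/
abbrev SphereMeasure (n : ℕ) : Type := Measure (sphere (0 : E n) 1)

/-- `∫ F(w) dP(w)` over the unit sphere -/
noncomputable def mean {n : ℕ} (P : SphereMeasure n) (F : E n → ℝ) : ℝ := ∫ w, F (w : E n) ∂P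

/-- the measure `P` on the unit sphere is invariant under the rotations which fix `e` -/
def Zonal {n : ℕ} (e : E n) (P : SphereMeasure n) : Prop :=
  ∀ θ : E n ≃ₗᵢ[ℝ] E n, IsRot θ → θ e = e → ∀ F : E n → ℝ, Continuous F →
    mean P (fun w => F (θ w)) = mean P F

/-- `K` has a support function which is `C^∞` off the origin -/
def SmoothBody {n : ℕ} (K : Body n) : Prop := ContDiffOn ℝ ∞ (supp K) {0}ᶜ

/-- `P - N` generates `T`: `h_{TK}(θ e) = ∫ h_K(θ w) dP(w) - ∫ h_K(θ w) dN(w)` for all rotations `θ` and all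
`K` with `C^∞` support function -/
def Generates {n : ℕ} (e : E n) (P N : SphereMeasure n) (T : Body n → Body n) : Prop :=
  ∀ K : Body n, SmoothBody K → ∀ θ : E n ≃ₗᵢ[ℝ] E n, IsRot θ →
    supp (T K) (θ e) = mean P (fun w => supp K (θ w)) - mean N (fun w => supp K (θ w))

/-- `P - N` generates an admissible map -/
def GeneratesAdmissible {n : ℕ} (e : E n) (P N : SphereMeasure n) : Prop :=
  ∃ T : Body n → Body n, Admissible T ∧ Generates e P N T

/-- the restriction of `P` to the complement of the poles `e`, `-e` -/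
noncomputable def off {n : ℕ} (e : E n) (P : SphereMeasure n) : SphereMeasure n :=
  P.restrict {w | (w : E n) ≠ e ∧ (w : E n) ≠ -e}

/-- the mass of the signed measure `P - N` at the point `x` -/
noncomputable def atom {n : ℕ} (P N : SphereMeasure n) (x : E n) : ℝ :=
  (P {w | (w : E n) = x}).toReal - (N {w | (w : E n) = x}).toReal

theorem result (n : ℕ) (hn : 3 ≤ n) (e : E n) (he : ‖e‖ = 1) (P N : SphereMeasure n)
    (hP : IsFiniteMeasure P) (hN : IsFiniteMeasure N) (zP : Zonal e P) (zN : Zonal e N) :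
    (GeneratesAdmissible e P N ↔
      0 ≤ atom P N e ∧ 0 ≤ atom P N (-e) ∧ GeneratesAdmissible e (off e P) (off e N)) ∧
    ∀ T : Body n → Body n, Admissible T → Generates e P N T →
      ∃ T' : Body n → Body n, Admissible T' ∧ Generates e (off e P) (off e N) T' ∧
        ∀ (K : Body n) (x : E n), supp (T K) x =
          atom P N e * supp K x + atom P N (-e) * supp K (-x) + supp (T' K) x := by
  have hA := Pool.Agent.Helper72.PM.hA
  have hB := Pool.Agent.Helper71.PM.hB
  have hD := Pool.Agent.Helper55.PM.hD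
  have hE := Pool.Agent.Helper22.PM.hE
  have hF := Pool.Agent.Helper57.PM.hF hB
  have hG := Pool.Agent.Helper36.PM.hG
  have hL := Pool.Agent.Helper60.PM.hL
  have hXA := Pool.Agent.Helper87.PM.hXA
  have hXB := Pool.Agent.Helper45.PM.hXB hXA
  have hXC := Pool.Agent.Helper85.PM.hXC hA hB hXA
  have hXL := Pool.Agent.Helper48.PM.hXL hA hXA
  have hXD := Pool.Agent.Helper27.PM.hXD hA hD hXA hXB hXL
  have hXE := Pool.Agent.Helper47.PM.hXE hA hD hE hL hXA hXC
  have hXF := Pool.Agent.Helper88.PM.hXF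
  have hXG := Pool.Agent.Helper51.PM.hXG hA hXA
  have hXH := Pool.Agent.Helper17.PM.hXH hD hL hXG
  have hXI := Pool.Agent.Helper21.PM.hXI hD hXA hXF hXG hXH
  have hXJ := Pool.Agent.Helper98.PM.hXJ
  have hXK := Pool.Agent.Helper70.PM.hXK hD hXF hXI hXJ
  have hXM := Pool.Agent.Helper62.PM.hXM
  have hNZ := Pool.Agent.Helper62.PM.hNZ hA hD hXA hXB hXC
  have hNA := Pool.Agent.Helper51.PM.hNA hA
  have hNB := Pool.Agent.Helper80.PM.hNB hD hE hF hNZ hNA
  have hNC := Pool.Agent.Helper66.PM.hNC hNB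
  have hNM := Pool.Agent.Helper56.PM.hNM
  have hND := Pool.Agent.Helper69.PM.hND hNC hNM
  have hNP := Pool.Agent.Helper73.PM.hNP hNB
  have hNE := Pool.Agent.Helper16.PM.hNE hA
  have hNF := Pool.Agent.Helper29.PM.hNF hA hNE
  have hC := Pool.Agent.Helper3.PM.hC hA hB
  have hPA := Pool.Agent.Helper53.PM.hPA
  have hPB := Pool.Agent.Helper55.PM.hPB
  have hPC := Pool.Agent.Helper15.PM.hPC hA
  have hPD := Pool.Agent.Helper40.PM.hPD hA hC hD
  have hPE := Pool.Agent.Helper84.PM.hPE hC hD hPA hPB hPC hPD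
  have hPF := Pool.Agent.Helper27.PM.hPF
  have m₁ : e ∈ sphere (0 : E n) 1 := by simp [he]
  have m₂ : -e ∈ sphere (0 : E n) 1 := by simp [he]
  have hs : ∀ (x : E n) (hx : x ∈ sphere (0 : E n) 1),
      {w : sphere (0 : E n) 1 | (w : E n) = x} = {(⟨x, hx⟩ : sphere (0 : E n) 1)} := by
    intro x hx
    ext w
    exact ⟨fun h => Subtype.ext h, fun h => congrArg Subtype.val h⟩
  have a₁ : atom P N e = (P {(⟨e, m₁⟩ : sphere (0 : E n) 1)}).toReal -
      (N {(⟨e, m₁⟩ : sphere (0 : E n) 1)}).toReal := by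
    unfold atom
    rw [hs e m₁]
  have a₂ : atom P N (-e) = (P {(⟨-e, m₂⟩ : sphere (0 : E n) 1)}).toReal -
      (N {(⟨-e, m₂⟩ : sphere (0 : E n) 1)}).toReal := by
    unfold atom
    rw [hs (-e) m₂]
  have key : ∀ T : Body n → Body n, Admissible T → Generates e P N T →
      ∃ T' : Body n → Body n, Admissible T' ∧ Generates e (off e P) (off e N) T' ∧
        0 ≤ atom P N e ∧ 0 ≤ atom P N (-e) ∧
        ∀ (K : Body n) (x : E n), supp (T K) x =
          atom P N e * supp K x + atom P N (-e) * supp K (-x) + supp (T' K) x := by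
    intro T hT hg
    obtain ⟨T', h1, h2, h3, h4, h5⟩ := Pool.Agent.Helper62.PM.poles hA hD hE hF hG hXA hXB hXC hXD
      hXE hXK hXM hNZ hNP hPE hPF hn he hP hN zP zN hT hg ⟨e, m₁⟩ ⟨-e, m₂⟩ rfl rfl
    rw [a₁, a₂]
    exact ⟨T', h1, h2, sub_nonneg.2 h3, sub_nonneg.2 h4, h5⟩
  refine ⟨⟨?_, ?_⟩, fun T hT hg => ?_⟩
  · rintro ⟨T, hT, hg⟩
    obtain ⟨T', h1, h2, h3, h4, -⟩ := key T hT hg
    exact ⟨h3, h4, T', h1, h2⟩
  · rintro ⟨h3, h4, T', -, h2⟩
    rw [a₁] at h3
    rw [a₂] at h4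
    exact Pool.Agent.Helper62.PM.poles_conv hA hD hE hF hG hXA hXB hXC hXD hXE hXK hXM hNZ hNF hn he
      hP hN zP zN ⟨e, m₁⟩ ⟨-e, m₂⟩ rfl rfl (sub_nonneg.1 h3) (sub_nonneg.1 h4) h2
  · obtain ⟨T', h1, h2, -, -, h5⟩ := key T hT hg
    exact ⟨T', h1, h2, h5⟩

end Pool.Agent.Helper62.Kept.PolesSplitOff
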