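import Pool.Agent.Helper62.Mink.Final3

/-!
# A necessary condition for every continuous density

For `n ≥ 3` and every continuous density `f` on `[-1, 1]`: if the zonal measure
`f ⟨e, w⟩ dσ(w)` generates an admissible map, then
`∫_0^π f(r cos θ) cos² θ sin^{n-3} θ dθ ≥ 0` for every `r ∈ [0, 1]`; in particular `f(0) ≥ 0`.
-/

namespace Pool.Agent.Helper62.Kept.SegmentTest

open MeasureTheory Metric Set
open Pool.Agent.Helper62.Mink

theorem kept_result (n : ℕ) (hn : 3 ≤ n) (e : E n) (he : ‖e‖ = 1) (f : ℝ → ℝ)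
    (hf : ContinuousOn f (Icc (-1) 1))
    (h : ∃ T : ConvexBody (E n) → ConvexBody (E n), Admissible T ∧ Generates e f T)
    (r : ℝ) (hr : r ∈ Icc (0 : ℝ) 1) :
    0 ≤ ∫ θ in (0 : ℝ)..Real.pi,
      f (r * Real.cos θ) * Real.cos θ ^ 2 * Real.sin θ ^ (n - 3) :=
  segment_test n hn e he f hf h r hr

end Pool.Agent.Helper62.Kept.SegmentTest
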